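import Mathlib

set_option autoImplicit false

namespace Pool.Agent.H.MP_6ba1da_al
open Subgroup PowerSeries
open scoped commutatorElement

/-- Lower central series. -/
abbrev L (G : Type) [Group G] (n : ℕ) : Subgroup G := (⊤ : Subgroup G).lowerCentralSeries n

/-- Lower central factors. -/
abbrev Q (G : Type) [Group G] (n : ℕ) := L G n ⧸ (L G (n + 1)).subgroupOf (L G n)

section
variable {G H : Type} [Group G] [Group H]

theorem L_map (f : G →* H) (n : ℕ) {x : G} (h : x ∈ L G n) : f x ∈ L H n := by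
  have : (L G n).map f ≤ L H n := by
    rw [map_lowerCentralSeries]; exact lowerCentralSeries_mono n le_top
  exact this ⟨x, h, rfl⟩

/-- Restriction. -/
def res (f : G →* H) (n : ℕ) : L G n →* L H n := 
  (f.comp (L G n).subtype).codRestrict _ fun x => L_map f n x.2

theorem iso {k : ℕ} (φ : L G k →* H) (h : Function.Surjective φ)
    (h' : ∀ x, φ x = 1 ↔ x.1 ∈ L G (k + 1)) : Nonempty (Q G k ≃* H) :=
  ⟨QuotientGroup.liftEquiv _ h (Subgroup.ext fun x => (h' x).symm)⟩

theorem iso_quot (π : G →* H) (h : Function.Surjective π) (k : ℕ) (hk : π.ker ≤ L G (k + 1)) :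
    (L H (k + 1)).comap π = L G (k + 1) ∧ Nonempty (Q G k ≃* Q H k) := by
  have e : ∀ n, (L G n).map π = L H n := fun n => by
    rw [map_lowerCentralSeries, map_top_of_surjective π h]
  have e' : (L H (k + 1)).comap π = L G (k + 1) := by rw [← e, comap_map_eq_self hk]
  refine ⟨e', iso ((QuotientGroup.mk' _).comp (res π k)) ((QuotientGroup.mk'_surjective _).comp
    fun y => ?_) fun x => (QuotientGroup.eq_one_iff _).trans (by rw [← e']; rfl)⟩
  obtain ⟨x, hx, e⟩ := (e k).ge y.2
  exact ⟨⟨x, hx⟩, Subtype.ext e⟩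

theorem comm (k : ℕ) (a b : Q G k) : a * b = b * a := by
  obtain ⟨a, rfl⟩ := QuotientGroup.mk'_surjective _ a
  obtain ⟨b, rfl⟩ := QuotientGroup.mk'_surjective _ b
  rw [← commutatorElement_eq_one_iff_mul_comm, ← map_commutatorElement]
  exact (QuotientGroup.eq_one_iff _).2 (commutator_mem_commutator a.2 (mem_top b.1))

end

theorem absorb {A : Type} [CommGroup A] (θ : A →* Multiplicative (Polynomial ℤ))
    (h : Function.Surjective θ) : Nonempty (A × Multiplicative (Polynomial ℤ) ≃* A) := by
  obtain ⟨s, hs⟩ := Module.projective_lifting_property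
    (MonoidHom.toAdditiveLeft θ).toIntLinearMap LinearMap.id h
  let b := Polynomial.basisMonomials ℤ
  let e := ((b.prod b).equiv b Equiv.natSumNatEquivNat).toAddEquiv
  let t := MonoidHom.toAdditiveLeft θ
  have h1 : ∀ y, t (s y) = y := fun y => LinearMap.congr_fun hs y
  let E : Additive A × Polynomial ℤ ≃+ Additive A :=
    { toFun := fun p => p.1 - s (t p.1) + s (e (t p.1, p.2))
      invFun := fun q => (q - s (t q) + s (e.symm (t q)).1, (e.symm (t q)).2)
      left_inv := fun p => by simp [h1]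
      right_inv := fun q => by simp [h1]
      map_add' := fun p q => by
        rw [Prod.fst_add, Prod.snd_add, map_add t, ← Prod.mk_add_mk]
        simp only [map_add]
        abel }
  exact ⟨{ E.toEquiv with map_mul' := E.map_add' }⟩

/-- Coefficient ring. -/
def Λ : Type := Polynomial ℤ
noncomputable instance : CommRing Λ := inferInstanceAs (CommRing (Polynomial ℤ))
abbrev M := PowerSeries Λ
abbrev F := FreeGroup (Option Λ)

theorem unit : IsUnit (1 + X : M) := by simp [isUnit_iff_constantCoeff]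

/-- Square zero operators. -/
noncomputable def U (N : ℕ) : Module.End Λ M := (coeff N).smulRight (X ^ (N + 1))

theorem UU (N : ℕ) : U N * U N = 0 := by ext1 m; simp [U, coeff_X_pow]

/-- Generators. -/
noncomputable def gen : Option Λ → (Module.End Λ M)ˣ
  | none => ⟨LinearMap.mulLeft Λ (1 + X), LinearMap.mulLeft Λ unit.unit⁻¹.1,
      LinearMap.ext fun m => unit.unit.mul_inv_cancel_left m,
      LinearMap.ext fun m => unit.unit.inv_mul_cancel_left m⟩
  | some l => ⟨1 + U (Polynomial.natDegree l), 1 - U (Polynomial.natDegree l), by simp [mul_sub, add_mul, UU],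
      by simp [mul_add, sub_mul, UU]⟩

/-- The action. -/
noncomputable def act (f : F) : Module.End Λ M := FreeGroup.lift gen f

theorem act_mul (f g : F) : act (f * g) = act f * act g := by simp [act]
theorem act_one : act 1 = 1 := by simp [act]
theorem act_none (m : M) : act (.of none) m = (1 + X) * m := by simp [act, gen]

/-- Raising the filtration. -/
def Rz (p : ℕ) (u : Module.End Λ M) : Prop := ∀ j m, X ^ j ∣ m → X ^ (j + p) ∣ u m

theorem Rz.mul {p q : ℕ} {u v : Module.End Λ M} (h : Rz p u) (h' : Rz q v) : Rz (q + p) (u * v) :=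
  fun j m hm => add_assoc j q p ▸ h _ _ (h' j m hm)
theorem Rz.add {p : ℕ} {u v : Module.End Λ M} (h : Rz p u) (h' : Rz p v) : Rz p (u + v) :=
  fun j m hm => dvd_add (h j m hm) (h' j m hm)
theorem Rz.neg {p : ℕ} {u : Module.End Λ M} (h : Rz p u) : Rz p (-u) :=
  fun j m hm => (dvd_neg (b := u m)).2 (h j m hm)
theorem Rz.zero {p : ℕ} {u : Module.End Λ M} (h : Rz p (u - 1)) : Rz 0 u := fun j m hm => by
  simpa using dvd_add ((pow_dvd_pow X (Nat.le_add_right j p)).trans (h j m hm)) hm

theorem rU (N : ℕ) : Rz 1 (U N) := fun j m hm => by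
  by_cases h : N < j
  · simp [U, X_pow_dvd_iff.1 hm N h]
  · simpa [U, smul_eq_C_mul] using (pow_dvd_pow X (by omega : j + 1 ≤ N + 1)).mul_left _

theorem r1 (f : F) : Rz 1 (act f - 1) := by
  induction f using FreeGroup.induction_on with
  | C1 => exact fun j m _ => by simp [act]
  | of x =>
    cases x with
    | none => exact fun j m hm => by simpa [act_none, add_mul, pow_succ'] using mul_dvd_mul_left X hm
    | some l => simpa [act, gen] using rU _
  | inv_of x _ =>
    cases x with
    | none =>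
      intro j m hm
      have : (act (FreeGroup.of none)⁻¹ - 1) m = X * m * -unit.unit⁻¹.1 := by
        have := unit.val_inv_mul
        simp only [act, map_inv, FreeGroup.lift_apply_of, gen, LinearMap.sub_apply]
        change unit.unit⁻¹.1 * m - m = _
        linear_combination m * this
      rw [this, pow_succ']
      exact (mul_dvd_mul_left X hm).mul_right _
    | some l => simpa [act, gen] using (rU _).neg
  | mul f g hf hg =>
    have := (hf.mul hg.zero).add hg
    rwa [sub_mul, one_mul, sub_add_sub_cancel, ← act_mul] at this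

theorem rk (k : ℕ) : ∀ f ∈ L F k, Rz (k + 1) (act f - 1) := by
  induction k with
  | zero => exact fun f _ => r1 f
  | succ k ih =>
    intro f hf
    induction hf using closure_induction with
    | mem _ h =>
      obtain ⟨f, hf, g, -, rfl⟩ := h
      have := (((ih f hf).mul (r1 g)).add (add_comm 1 (k + 1) ▸ ((r1 g).mul (ih f hf)).neg)).mul
        (r1 (f⁻¹ * g⁻¹)).zero
      convert this using 1
      · omega
      · have e : act g * act f * act (f⁻¹ * g⁻¹) = 1 := by simp [← act_mul, act_one]
        rw [commutatorElement_def, mul_assoc, act_mul, act_mul]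
        conv_lhs => rw [← e, ← sub_mul]
        congr 1
        simp only [sub_mul, mul_sub, mul_one, one_mul]
        abel
    | one => exact fun j m _ => by simp [act]
    | mul f g _ _ hf hg =>
      have := (hf.mul (r1 g).zero).add (zero_add (k + 1 + 1) ▸ hg)
      rwa [sub_mul, one_mul, sub_add_sub_cancel, ← act_mul, zero_add] at this
    | inv f _ hf =>
      have := (hf.mul (r1 f⁻¹).zero).neg
      rwa [sub_mul, one_mul, neg_sub, ← act_mul, mul_inv_cancel, act_one, zero_add] at this

/-- The semidirect product. -/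
@[ext] structure G0 where
  m : M
  f : F

noncomputable instance : Mul G0 := ⟨fun a b => ⟨a.m + act a.f b.m, a.f * b.f⟩⟩
noncomputable instance : One G0 := ⟨⟨0, 1⟩⟩
noncomputable instance : Inv G0 := ⟨fun a => ⟨-act a.f⁻¹ a.m, a.f⁻¹⟩⟩
@[simp] theorem mul_m (a b : G0) : (a * b).m = a.m + act a.f b.m := rfl
@[simp] theorem mul_f (a b : G0) : (a * b).f = a.f * b.f := rfl
@[simp] theorem one_m : (1 : G0).m = 0 := rfl
@[simp] theorem one_f : (1 : G0).f = 1 := rfl
@[simp] theorem inv_m (a : G0) : a⁻¹.m = -act a.f⁻¹ a.m := rfl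
@[simp] theorem inv_f (a : G0) : a⁻¹.f = a.f⁻¹ := rfl

noncomputable instance : Group G0 := Group.ofLeftAxioms
  (fun a b c => G0.ext (by simp [act_mul, add_assoc]) (mul_assoc ..))
  (fun a => G0.ext (by simp [act_one]) (one_mul _)) fun a => G0.ext (by simp) (inv_mul_cancel _)

theorem act_act (f g : F) (m : M) : act f (act g m) = act (f * g) m := by rw [act_mul]; rfl

theorem memL (k : ℕ) (m : M) : (⟨X ^ k * m, 1⟩ : G0) ∈ L G0 k := by
  induction k generalizing m with
  | zero => exact mem_top _
  | succ k ih =>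
    have := commutator_mem_commutator (ih (-m)) (mem_top ⟨0, .of none⟩)
    refine (congrArg (· ∈ L G0 (k + 1)) ?_).mp this
    ext1
    · simp [commutatorElement_def, act_one, act_none]; ring
    · simp [commutatorElement_def]

theorem mem_iff (k : ℕ) (g : G0) : g ∈ L G0 k ↔ X ^ k ∣ g.m ∧ g.f ∈ L F k := by
  constructor
  · refine fun h => ⟨?_, L_map (MonoidHom.mk' G0.f mul_f) k h⟩
    induction k generalizing g with
    | zero => simp
    | succ k ih =>
      induction h using closure_induction with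
      | mem _ h =>
        obtain ⟨a, ha, b, -, rfl⟩ := h
        have h1 := L_map (MonoidHom.mk' G0.f mul_f) k ha
        have h2 := rk k _ h1 0 b.m (by simp)
        have h3 := rk (k + 1) _ (commutator_mem_commutator h1 (mem_top b.f)) 0 b.m (by simp)
        have h4 := r1 (a.f * b.f * a.f⁻¹) k _ (ih a ha)
        convert dvd_sub (dvd_sub (zero_add (k + 1) ▸ h2) h4)
          ((pow_dvd_pow X (by omega)).trans h3) using 1
        simp [commutatorElement_def, act_act]
        ring
      | one => simp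
      | mul a b _ _ ha hb => exact dvd_add ha ((r1 a.f).zero _ _ hb)
      | inv a _ ha => exact dvd_neg.2 ((r1 _).zero _ _ ha)
  · rintro ⟨⟨m, h1⟩, h2⟩
    convert mul_mem (memL k m) (L_map (MonoidHom.mk' (fun f => (⟨0, f⟩ : G0)) fun a b =>
      G0.ext (by simp) rfl) k h2)
    ext1 <;> simp [h1]

/-- The leading coefficient. -/
noncomputable def lc (k : ℕ) : L G0 k →* Multiplicative Λ :=
  MonoidHom.mk' (fun g => .ofAdd (coeff k g.1.m)) fun a b => by
    have := X_pow_dvd_iff.1 (r1 a.1.f k _ ((mem_iff k _).1 b.2).1) k k.lt_succ_self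
    rw [← ofAdd_add, Subgroup.coe_mul, mul_m, map_add]
    simp only [LinearMap.sub_apply, map_sub, sub_eq_zero] at this
    rw [this]; rfl

theorem lc_one {k : ℕ} (g : L G0 k) : lc k g = 1 ↔ X ^ (k + 1) ∣ g.1.m := by
  have := X_pow_dvd_iff.1 ((mem_iff k _).1 g.2).1
  rw [X_pow_dvd_iff, Nat.forall_lt_succ_right, and_iff_right this]
  rfl

theorem iso0 (k : ℕ) : Nonempty (Q G0 k ≃* Q F k) := by
  obtain ⟨e⟩ := iso (((QuotientGroup.mk' ((L F (k + 1)).subgroupOf (L F k))).comp
    (res (MonoidHom.mk' G0.f mul_f) k)).prod (lc k)) (fun ⟨q, l⟩ => by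
      obtain ⟨f, rfl⟩ := QuotientGroup.mk'_surjective _ q
      refine ⟨⟨⟨X ^ k * C l.toAdd, f⟩, (mem_iff k _).2 ⟨dvd_mul_right _ _, f.2⟩⟩, Prod.ext rfl ?_⟩
      exact congrArg Multiplicative.ofAdd (by simp [coeff_X_pow] : coeff k (X ^ k * C l.toAdd) = l.toAdd))
    fun g => by
    rw [mem_iff, Prod.ext_iff, and_comm]
    exact and_congr (lc_one g) (QuotientGroup.eq_one_iff _)
  let η : F →* G0 := FreeGroup.lift fun x => x.elim ⟨0, .of none⟩ fun l => ⟨C l, 1⟩
  have h : ∀ k l, ∃ f ∈ L F k, η f = ⟨X ^ k * C l, 1⟩ := fun k => by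
    induction k with
    | zero => exact fun l => ⟨.of (some l), mem_top _, by simp [η]⟩
    | succ k ih =>
      intro l
      obtain ⟨f, hf, e⟩ := ih (-l)
      refine ⟨_, commutator_mem_commutator hf (mem_top (.of none)), ?_⟩
      rw [map_commutatorElement, e]
      ext1
      · simp [η, commutatorElement_def, act_one, act_none]; ring
      · simp [η, commutatorElement_def]
  let _ : CommGroup (Q F k) := { (inferInstance : Group (Q F k)) with mul_comm := comm k }
  obtain ⟨e'⟩ := absorb (A := Q F k) (QuotientGroup.lift _ ((lc k).comp (res η k)) fun x hx =>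
    (lc_one _).2 ((mem_iff _ _).1 (L_map η _ hx)).1) fun l => by
      obtain ⟨f, hf, e⟩ := h k l.toAdd
      exact ⟨QuotientGroup.mk ⟨f, hf⟩, congrArg Multiplicative.ofAdd
        (by simp [e, coeff_X_pow] : coeff k (η f).m = l.toAdd)⟩
  exact ⟨e.trans e'⟩

theorem coeff_pow (i N : ℕ) : coeff N ((1 + X) ^ i : M) = i.choose N := by
  have := Polynomial.coeff_one_add_X_pow Λ i N
  rwa [← Polynomial.coeff_coe, Polynomial.coe_pow, Polynomial.coe_add, Polynomial.coe_one,
    Polynomial.coe_X] at this

theorem comm_eq (N i : ℕ) : ⁅(⟨0, .of (some (Polynomial.X ^ N : Polynomial ℤ))⟩ : G0),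
    (⟨(1 + X) ^ i, 1⟩ : G0)⁆ = ⟨(i.choose N : Λ) • X ^ (N + 1), 1⟩ := by
  ext1
  · simp only [commutatorElement_def, mul_m, mul_f, inv_m, inv_f, map_zero, neg_zero, add_zero,
      zero_add, mul_one, mul_inv_cancel, inv_one, act_one, Module.End.one_apply]
    simp [act, gen, U, coeff_pow]
  · simp [commutatorElement_def]

theorem conj_eq (i : ℕ) : (⟨0, .of none⟩ : G0) * ((⟨(1 + X) ^ i, 1⟩ : G0) * (⟨0, .of none⟩ : G0)⁻¹) =
    ⟨(1 + X) ^ (i + 1), 1⟩ := by
  ext1 <;> simp [act_none, pow_succ']

theorem lin {G A R : Type*} [Group G] [CommRing R] [Ring A] [Algebra R A] [Module.Finite R A]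
    (ρ : G →* Aˣ) (b : G) (x : ℕ → G) (h : ∀ i, b * (x i * b⁻¹) = x (i + 1)) :
    ∃ N, ∀ a, (∀ i < N, Commute a (x i)) → ρ ⁅a, x N⁆ = 1 := by
  let Ad : Module.End R A := LinearMap.mulLeft R (ρ b).1 ∘ₗ LinearMap.mulRight R (ρ b⁻¹).1
  obtain ⟨p, hp, h0⟩ := LinearMap.exists_monic_and_aeval_eq_zero R Ad
  have h1 : ∀ i, (Ad ^ i) (ρ (x 0)).1 = (ρ (x i)).1 := fun i => by
    induction i with
    | zero => rfl
    | succ i ih => rw [pow_succ', Module.End.mul_apply, ih, ← h, map_mul, map_mul]; rfl
  refine ⟨p.natDegree, fun a ha => ?_⟩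
  have := LinearMap.congr_fun h0 (ρ (x 0)).1
  rw [Polynomial.aeval_eq_sum_range, Finset.sum_range_succ, hp.coeff_natDegree, one_smul,
    LinearMap.add_apply, h1, LinearMap.zero_apply, LinearMap.sum_apply] at this
  rw [map_commutatorElement, commutatorElement_eq_one_iff_commute]
  refine Commute.units_of_val ?_
  rw [eq_neg_of_add_eq_zero_right this]
  refine (Commute.sum_right _ _ _ fun i hi => ?_).neg_right
  rw [LinearMap.smul_apply, h1]
  exact ((ha i (Finset.mem_range.1 hi)).map ρ).units_val.smul_right _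

theorem nonlin {R : Type*} [CommRing R] {n : ℕ} (ρ : G0 →* GL (Fin n) R) :
    ∃ k, ρ ⟨X ^ k, 1⟩ = 1 := by
  obtain ⟨N, h⟩ := lin (R := R) ρ _ _ conj_eq
  have := h _ fun i hi => commutatorElement_eq_one_iff_commute.1 ((comm_eq N i).trans (by
    rw [Nat.choose_eq_zero_of_lt hi, Nat.cast_zero, zero_smul]; rfl))
  rw [comm_eq, Nat.choose_self, Nat.cast_one, one_smul] at this
  exact ⟨_, this⟩

theorem not_mem (k : ℕ) : (⟨X ^ k, 1⟩ : G0) ∉ L G0 (k + 1) := fun h => by
  have := X_pow_dvd_iff.1 ((mem_iff _ _).1 h).1 k k.lt_succ_self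
  rw [coeff_X_pow_self] at this
  exact one_ne_zero (α := Polynomial ℤ) this

end Pool.Agent.H.MP_6ba1da_al
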